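import Pool.Agent.H37.CNS.Stmts
import Pool.Agent.H45.CNE.SLX

/-!
# Row INF of the board `cns`
-/

set_option autoImplicit false

namespace Pool.CND

theorem inf_thm (hRMX : S_RMX) (hTOT : S_TOT) : S_INF := by
  intro k L G _ _ _ _ _ _ ρ t P I hcov ht hI
  have ht0 : t ≠ 0 := by
    rintro rfl
    exact hcov.trans (isAlgebraic_zero)
  have hmem : ∀ g : G, g ∈ I ↔ Fixes P (ρ g) := by
    intro g
    rw [← SetLike.mem_coe, hI]
    constructor
    · intro h
      exact h.1
    · intro h
      refine ⟨h, fun u hu hu1 => ?_⟩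
      by_cases h0 : ρ g u - u = 0
      · left
        exact sub_eq_zero.1 h0
      · right
        have h1 : P.Ge (ρ g u) 1 := by
          have := P.ge_ord (ρ g u)
          rw [h u hu, hu1] at this
          exact this
        have h2 : P.Ge u 1 := by
          have := P.ge_ord u
          rw [hu1] at this
          exact this
        have h3 := (P.ge_iff h0 1).1 (P.ge_sub h1 h2)
        push_cast
        omega
  obtain ⟨w, hw0, hwf, hw1⟩ := hRMX k L G P ρ ⊤ I (by
    intro g
    rw [hmem]
    exact ⟨fun h => ⟨Subgroup.mem_top _, h⟩, fun h => h.2⟩)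
  have hwt : w ∈ IntermediateField.adjoin k {t} :=
    (hcov.fixed w).1 (fun g => hwf g (Subgroup.mem_top g))
  have htmem : t ∈ IntermediateField.adjoin k {t} :=
    IntermediateField.mem_adjoin_simple_self k t
  have htfix : ∀ g : G, ρ g t = t := (hcov.fixed t).2 htmem
  have hadj : IntermediateField.adjoin k {t⁻¹} = IntermediateField.adjoin k {t} := by
    apply le_antisymm
    · rw [IntermediateField.adjoin_simple_le_iff]
      exact inv_mem htmem
    · rw [IntermediateField.adjoin_simple_le_iff]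
      have := inv_mem (IntermediateField.mem_adjoin_simple_self k t⁻¹)
      rw [inv_inv] at this
      exact this
  obtain ⟨e, he⟩ : ∃ e : ℕ, -P.ord t = (e : ℤ) := ⟨(-P.ord t).toNat, by
    rw [Int.toNat_of_nonneg]
    omega⟩
  have he1 : 1 ≤ e := by omega
  have hinv : P.ord t⁻¹ = (e : ℤ) := by
    rw [P.ord_inv ht0, he]
  have hd1 : (e : ℤ) ∣ (Nat.card I : ℤ) := by
    rw [← hw1]
    exact (slx_thm k L P t⁻¹ e he1 (inv_ne_zero ht0) hinv w (by rw [hadj]; exact hwt) hw0).1
  have hd2 : (Nat.card I : ℤ) ∣ P.ord t :=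
    hTOT k L G P ρ I hcov.inj (fun n hn => (hmem n).1 hn) t ht0 (fun n _ => htfix n)
  have hd3 : (Nat.card I : ℤ) ∣ (e : ℤ) := by
    rw [← he]
    exact (dvd_neg).2 hd2
  have h4 : e = Nat.card I :=
    Nat.dvd_antisymm (Int.natCast_dvd_natCast.1 hd1) (Int.natCast_dvd_natCast.1 hd3)
  rw [← h4]
  omega

end Pool.CND
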